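import Mathlib

set_option autoImplicit false

namespace Pool.Agent.RegGeo

/-- Combinatorial core, first form: short relators. -/
theorem comb_short {σ : Type*} [Fintype σ] (L : ℕ) (g : ℕ → ℕ → Prop) (q : ℕ → ℕ → σ)
    (hsub : ∀ i i' j' j, g i j → i ≤ i' → i' ≤ j' → j' ≤ j → g i' j')
    (hlen : ∀ i j, i ≤ j → g i j → 2 * (j - i) ≤ L)
    (hst : ∀ i i' c j, i ≤ c → i' ≤ c → c ≤ j → q i c = q i' c → (g i j ↔ g i' j))
    (hL : 2 * Fintype.card σ ≤ L) :
    ∃ i l, 2 * l ≤ L ∧ ¬ g i (i + l) := by
  by_contra hcon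
  push Not at hcon
  set h := L / 2 with hh
  have hcard : Fintype.card σ < Fintype.card (Fin (h + 1)) := by
    rw [Fintype.card_fin]; omega
  obtain ⟨a, b, hab, hq⟩ :=
    Fintype.exists_ne_map_eq_of_card_lt (fun i : Fin (h + 1) => q i.1 h) hcard
  have key : ∀ a b : ℕ, a < b → b ≤ h → q a h = q b h → False := by
    intro a b hab hb hq
    have h1 : g b (b + h) := hcon b h (by omega)
    have h2 : g b (a + h + 1) := hsub b b (a + h + 1) (b + h) h1 le_rfl (by omega) (by omega)
    have h3 : g a (a + h + 1) := (hst a b h (a + h + 1) (by omega) hb (by omega) hq).2 h2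
    have h4 := hlen a (a + h + 1) (by omega) h3
    omega
  rcases lt_or_gt_of_ne (fun h' => hab (Fin.ext h') : a.1 ≠ b.1) with hlt | hlt
  · exact key a.1 b.1 hlt (by omega) hq
  · exact key b.1 a.1 hlt (by omega) hq.symm

/-- Combinatorial core, second form: a definite saving. -/
theorem comb_saving {σ : Type*} [Fintype σ] (L : ℕ) (g : ℕ → ℕ → Prop) (q : ℕ → ℕ → σ)
    (hrefl : ∀ i, g i i)
    (hsub : ∀ i i' j' j, g i j → i ≤ i' → i' ≤ j' → j' ≤ j → g i' j')
    (hlen : ∀ i j, i ≤ j → g i j → 2 * (j - i) ≤ L)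
    (hst : ∀ i i' c j, i ≤ c → i' ≤ c → c ≤ j → q i c = q i' c → (g i j ↔ g i' j)) :
    ∃ i l, 4 * Fintype.card σ * l + L ≤ 2 * Fintype.card σ * L + 8 * Fintype.card σ ∧
      ¬ g i (i + l) := by
  classical
  set N := Fintype.card σ with hN
  have hNpos : 0 < N := Fintype.card_pos_iff.2 ⟨q 0 0⟩
  -- maximal geodesic prefix from a given start
  have hmax : ∀ i, ∀ c, i ≤ c → g i c → ∃ j, c ≤ j ∧ g i j ∧ ¬ g i (j + 1) := by
    intro i c hic hg
    by_contra hcon
    push Not at hcon
    have : ∀ k, g i (c + k) := by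
      intro k
      induction k with
      | zero => simpa using hg
      | succ k ih => exact hcon (c + k) (by omega) ih
    have h1 := hlen i (c + (L + 1)) (by omega) (this (L + 1))
    omega
  obtain ⟨c, -, hc, hc'⟩ := hmax 0 0 le_rfl (hrefl 0)
  by_cases hsmall : 4 * (c + 1) < L
  · refine ⟨0, c + 1, ?_, by simpa using hc'⟩
    nlinarith
  · push Not at hsmall
    -- pigeonhole on starts 0..c
    have hmaps : ∀ i ∈ Finset.range (c + 1), q i c ∈ (Finset.univ : Finset σ) := fun _ _ =>
      Finset.mem_univ _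
    obtain ⟨s, -, hs⟩ : ∃ s ∈ (Finset.univ : Finset σ),
        c + 1 ≤ N * ((Finset.range (c + 1)).filter (fun i => q i c = s)).card := by
      by_contra hcon
      push Not at hcon
      have h1 := Finset.card_eq_sum_card_fiberwise hmaps
      have h2 : N * (Finset.range (c + 1)).card ≤ ∑ s : σ, c := by
        rw [h1, Finset.mul_sum]
        exact Finset.sum_le_sum fun s hs => Nat.lt_succ_iff.1 (hcon s hs)
      rw [Finset.sum_const, Finset.card_univ, ← hN, Finset.card_range, smul_eq_mul] at h2
      nlinarith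
    set T := (Finset.range (c + 1)).filter (fun i => q i c = s) with hT
    have hTne : T.Nonempty := by
      rw [← Finset.card_pos]
      by_contra h0
      have : T.card = 0 := by omega
      rw [this] at hs; omega
    set i1 := T.min' hTne with hi1
    set i2 := T.max' hTne with hi2
    have h1mem : i1 ∈ T := Finset.min'_mem _ _
    have h2mem : i2 ∈ T := Finset.max'_mem _ _
    have hcardT : T.card ≤ i2 - i1 + 1 := by
      have hsubT : T ⊆ Finset.Icc i1 i2 := by
        intro x hx
        rw [Finset.mem_Icc]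
        exact ⟨Finset.min'_le _ _ hx, Finset.le_max' _ _ hx⟩
      have := Finset.card_le_card hsubT
      rw [Nat.card_Icc] at this
      have h12 : i1 ≤ i2 := Finset.min'_le _ _ h2mem
      omega
    rw [hT, Finset.mem_filter, Finset.mem_range] at h1mem h2mem
    have hg1 : g i1 c := hsub 0 i1 c c hc (by omega) (by omega) le_rfl
    obtain ⟨j, hcj, hj, hj'⟩ := hmax i1 c (by omega) hg1
    have hnot : ¬ g i2 (j + 1) := by
      intro h
      exact hj' ((hst i1 i2 c (j + 1) (by omega) (by omega) (by omega)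
        (h1mem.2.trans h2mem.2.symm)).2 h)
    have hl1 := hlen i1 j (by omega) hj
    refine ⟨i2, j + 1 - i2, ?_, ?_⟩
    · have h12 : i1 ≤ i2 := Finset.min'_le _ _ (Finset.max'_mem _ _)
      have hA : 2 * (j + 1 - i2) + 2 * T.card ≤ L + 4 := by omega
      have hB : L ≤ 4 * (N * T.card) := by omega
      nlinarith
    · have : i2 + (j + 1 - i2) = j + 1 := by omega
      rw [this]; exact hnot

end Pool.Agent.RegGeo
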