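import Mathlib
import Pool.Agent.RegGeo.Comb

set_option autoImplicit false

namespace Pool.Agent.RegGeo

variable {G : Type*} [Group G] {ι : Type*}

/-- value of a word in the group -/
def val (f : ι → G) (w : List (ι × Bool)) : G :=
  (w.map fun p => if p.2 = true then f p.1 else (f p.1)⁻¹).prod

/-- geodesic words -/
def Geo (f : ι → G) (w : List (ι × Bool)) : Prop :=
  ∀ v : List (ι × Bool), val f v = val f w → w.length ≤ v.length

@[simp] theorem val_nil (f : ι → G) : val f [] = 1 := rfl

theorem val_append (f : ι → G) (u v : List (ι × Bool)) :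
    val f (u ++ v) = val f u * val f v := by
  simp [val]

theorem val_eq_lift (f : ι → G) (w : List (ι × Bool)) :
    val f w = FreeGroup.lift f (FreeGroup.mk w) := by
  rw [FreeGroup.lift_mk]
  unfold val
  congr 1
  apply List.map_congr_left
  intro p _
  rcases p with ⟨x, b⟩
  cases b <;> simp

theorem val_invRev (f : ι → G) (w : List (ι × Bool)) :
    val f (FreeGroup.invRev w) = (val f w)⁻¹ := by
  rw [val_eq_lift, val_eq_lift, ← FreeGroup.inv_mk, map_inv]

/-- every element of the image has a geodesic word -/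
theorem exists_geo (f : ι → G) (w : List (ι × Bool)) :
    ∃ v, val f v = val f w ∧ Geo f v := by
  classical
  have hne : ∃ n, ∃ v : List (ι × Bool), val f v = val f w ∧ v.length = n := ⟨_, w, rfl, rfl⟩
  obtain ⟨v, hv, hvn⟩ := Nat.find_spec hne
  refine ⟨v, hv, fun u hu => ?_⟩
  rw [hvn]
  exact Nat.find_min' hne ⟨u, hu.trans hv, rfl⟩

theorem Geo.sub {f : ι → G} {a b c : List (ι × Bool)} (h : Geo f (a ++ b ++ c)) : Geo f b := by
  intro v hv
  have := h (a ++ v ++ c) (by simp only [val_append, hv])
  simp only [List.length_append] at this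
  omega

/-- factor of length `n` at position `i` of an infinite word -/
def seg (W : ℕ → ι × Bool) : ℕ → ℕ → List (ι × Bool)
  | _, 0 => []
  | i, n + 1 => W i :: seg W (i + 1) n

@[simp] theorem seg_zero (W : ℕ → ι × Bool) (i : ℕ) : seg W i 0 = [] := rfl

theorem seg_succ (W : ℕ → ι × Bool) (i n : ℕ) : seg W i (n + 1) = W i :: seg W (i + 1) n := rfl

@[simp] theorem length_seg (W : ℕ → ι × Bool) (i n : ℕ) : (seg W i n).length = n := by
  induction n generalizing i with
  | zero => rfl
  | succ n ih => simp [seg_succ, ih]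

theorem seg_add (W : ℕ → ι × Bool) (i m n : ℕ) :
    seg W i (m + n) = seg W i m ++ seg W (i + m) n := by
  induction m generalizing i with
  | zero => simp
  | succ m ih =>
    rw [Nat.add_right_comm, seg_succ, seg_succ, ih, List.cons_append]
    congr 3
    omega

theorem seg_shift (W : ℕ → ι × Bool) (L : ℕ) (hW : ∀ i, W (i + L) = W i) (i n : ℕ) :
    seg W (i + L) n = seg W i n := by
  induction n generalizing i with
  | zero => rfl
  | succ n ih =>
    rw [seg_succ, seg_succ, hW, ← ih (i + 1)]
    congr 2
    omega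

/-- the periodic extension of a nonempty word -/
def per (w : List (ι × Bool)) (hw : w ≠ []) (i : ℕ) : ι × Bool :=
  w[i % w.length]'(Nat.mod_lt _ (List.length_pos_of_ne_nil hw))

theorem per_add (w : List (ι × Bool)) (hw : w ≠ []) (i : ℕ) :
    per w hw (i + w.length) = per w hw i := by
  simp [per]

theorem seg_eq_drop (w : List (ι × Bool)) (hw : w ≠ []) (i n : ℕ) (h : i + n = w.length) :
    seg (per w hw) i n = w.drop i := by
  induction n generalizing i with
  | zero =>
    rw [seg_zero, List.drop_eq_nil_of_le (by omega)]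
  | succ n ih =>
    rw [seg_succ, ih (i + 1) (by omega), List.drop_eq_getElem_cons (i := i) (by omega)]
    congr 1
    simp only [per]
    congr 1
    exact Nat.mod_eq_of_lt (by omega)

theorem seg_per (w : List (ι × Bool)) (hw : w ≠ []) : seg (per w hw) 0 w.length = w := by
  rw [seg_eq_drop w hw 0 w.length (by omega), List.drop_zero]

/-- rotation identity -/
theorem seg_rot (W : ℕ → ι × Bool) (L : ℕ) (hW : ∀ i, W (i + L) = W i) (i : ℕ) :
    seg W 0 i ++ seg W i L = seg W 0 L ++ seg W 0 i := by
  have h1 : seg W 0 (i + L) = seg W 0 i ++ seg W i L := by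
    rw [seg_add]; simp
  have h2 : seg W 0 (L + i) = seg W 0 L ++ seg W 0 i := by
    rw [seg_add, ← seg_shift W L hW 0 i]
  rw [← h1, Nat.add_comm, h2]

theorem val_seg_period (f : ι → G) (W : ℕ → ι × Bool) (L : ℕ) (hW : ∀ i, W (i + L) = W i)
    (h1 : val f (seg W 0 L) = 1) (i : ℕ) : val f (seg W i L) = 1 := by
  have := congrArg (val f) (seg_rot W L hW i)
  rw [val_append, val_append, h1, one_mul] at this
  exact mul_eq_left.1 this

/-- the geodesic factors of a closed word satisfy the hypotheses of the combinatorial core -/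
theorem hyp_len (f : ι → G) (W : ℕ → ι × Bool) (L : ℕ) (hL : 0 < L)
    (hW : ∀ i, W (i + L) = W i) (h1 : val f (seg W 0 L) = 1) (i n : ℕ)
    (hg : Geo f (seg W i n)) : 2 * n ≤ L := by
  have hi := val_seg_period f W L hW h1 i
  rcases le_or_gt n L with hn | hn
  · have hsplit : seg W i L = seg W i n ++ seg W (i + n) (L - n) := by
      rw [← seg_add]; congr 1; omega
    rw [hsplit, val_append] at hi
    have := hg (FreeGroup.invRev (seg W (i + n) (L - n))) (by
      rw [val_invRev]; exact (eq_inv_of_mul_eq_one_left hi).symm)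
    rw [FreeGroup.invRev_length, length_seg, length_seg] at this
    omega
  · exfalso
    have hsplit : seg W i n = [] ++ seg W i L ++ seg W (i + L) (n - L) := by
      rw [List.nil_append, ← seg_add]; congr 1; omega
    rw [hsplit] at hg
    have := hg.sub [] (by rw [hi, val_nil])
    simp only [length_seg, List.length_nil] at this
    omega

theorem hyp_sub (f : ι → G) (W : ℕ → ι × Bool) (i i' j' j : ℕ)
    (hg : Geo f (seg W i (j - i))) (h1 : i ≤ i') (h2 : i' ≤ j') (h3 : j' ≤ j) :
    Geo f (seg W i' (j' - i')) := by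
  have : seg W i (j - i) = seg W i (i' - i) ++ seg W i' (j' - i') ++ seg W j' (j - j') := by
    have e1 : j - i = (i' - i) + ((j' - i') + (j - j')) := by omega
    rw [e1, seg_add, seg_add, List.append_assoc]
    have e2 : i + (i' - i) = i' := by omega
    have e3 : i' + (j' - i') = j' := by omega
    rw [e2, e3]
  rw [this] at hg
  exact hg.sub

theorem hyp_st {σ : Type*} (f : ι → G) (M : DFA (ι × Bool) σ)
    (hM : ∀ w, M.eval w ∈ M.accept ↔ Geo f w) (W : ℕ → ι × Bool)
    (i i' c j : ℕ) (h1 : i ≤ c) (h2 : i' ≤ c) (h3 : c ≤ j)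
    (hq : M.eval (seg W i (c - i)) = M.eval (seg W i' (c - i'))) :
    Geo f (seg W i (j - i)) ↔ Geo f (seg W i' (j - i')) := by
  have key : ∀ k, k ≤ c → M.eval (seg W k (j - k)) =
      M.evalFrom (M.eval (seg W k (c - k))) (seg W c (j - c)) := by
    intro k hk
    have e1 : j - k = (c - k) + (j - c) := by omega
    have e2 : k + (c - k) = c := by omega
    rw [e1, seg_add, e2]
    simp only [DFA.eval]
    rw [DFA.evalFrom_of_append]
  rw [← hM, ← hM, key i h1, key i' h2, hq]

end Pool.Agent.RegGeo
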