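import Mathlib
import Pool.Agent.RegGeo.Words

set_option autoImplicit false

namespace Pool.Agent.RegGeo

variable {G : Type*} [Group G] {ι : Type*}

/-- `g` is a product of at most `B` conjugates of trivial words of length less than `K` -/
def Fill (f : ι → G) (K B : ℕ) (g : FreeGroup ι) : Prop :=
  ∃ l : List (FreeGroup ι), l.length ≤ B ∧
    (∀ x ∈ l, ∃ (c : FreeGroup ι) (r : List (ι × Bool)), r.length < K ∧ val f r = 1 ∧
      x = c * FreeGroup.mk r * c⁻¹) ∧ l.prod = g

theorem Fill.mono {f : ι → G} {K B B' : ℕ} {g : FreeGroup ι} (h : Fill f K B g) (hB : B ≤ B') :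
    Fill f K B' g := by
  obtain ⟨l, h1, h2, h3⟩ := h
  exact ⟨l, h1.trans hB, h2, h3⟩

theorem Fill.mul {f : ι → G} {K B B' : ℕ} {g g' : FreeGroup ι} (h : Fill f K B g)
    (h' : Fill f K B' g') : Fill f K (B + B') (g * g') := by
  obtain ⟨l, h1, h2, h3⟩ := h
  obtain ⟨l', h1', h2', h3'⟩ := h'
  refine ⟨l ++ l', by simp; omega, ?_, by simp [h3, h3']⟩
  intro x hx
  rcases List.mem_append.1 hx with hx | hx
  · exact h2 x hx
  · exact h2' x hx

theorem Fill.conj {f : ι → G} {K B : ℕ} {g : FreeGroup ι} (h : Fill f K B g)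
    (c : FreeGroup ι) : Fill f K B (c * g * c⁻¹) := by
  obtain ⟨l, h1, h2, h3⟩ := h
  refine ⟨l.map (MulAut.conj c), by simpa using h1, ?_, ?_⟩
  · intro x hx
    obtain ⟨y, hy, rfl⟩ := List.mem_map.1 hx
    obtain ⟨d, r, hr, hr1, rfl⟩ := h2 y hy
    exact ⟨c * d, r, hr, hr1, by simp [MulAut.conj_apply, mul_assoc]⟩
  · rw [← map_list_prod, h3, MulAut.conj_apply]

theorem Fill.single {f : ι → G} {K : ℕ} {w : List (ι × Bool)} (h : w.length < K)
    (hw : val f w = 1) : Fill f K 1 (FreeGroup.mk w) :=
  ⟨[FreeGroup.mk w], by simp, by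
    intro x hx
    rw [List.mem_singleton] at hx
    exact ⟨1, w, h, hw, by simp [hx]⟩, by simp⟩

/-- all trivial words of length at most `n` can be filled with `B` relators shorter than `K` -/
def FillAll (f : ι → G) (K n B : ℕ) : Prop :=
  ∀ w : List (ι × Bool), w.length ≤ n → val f w = 1 → Fill f K B (FreeGroup.mk w)

/-- splitting a trivial word along a shortcut -/
theorem split (f : ι → G) (w : List (ι × Bool)) (hw : w ≠ []) (h1 : val f w = 1) (i l : ℕ)
    (hl : l ≤ w.length) (hng : ¬ Geo f (seg (per w hw) i l)) :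
    ∃ (c : FreeGroup ι) (u v : List (ι × Bool)), val f u = 1 ∧ val f v = 1 ∧
      u.length + 1 ≤ 2 * l ∧ v.length + 1 ≤ w.length ∧
      FreeGroup.mk w = c * (FreeGroup.mk u * FreeGroup.mk v) * c⁻¹ := by
  set W := per w hw with hWdef
  have hW : ∀ i, W (i + w.length) = W i := per_add w hw
  have hw0 : seg W 0 w.length = w := seg_per w hw
  have hclosed : val f (seg W 0 w.length) = 1 := by rw [hw0]; exact h1
  obtain ⟨s', hs', hgeo⟩ := exists_geo f (seg W i l)
  have hlt : s'.length < l := by
    by_contra hcon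
    push Not at hcon
    apply hng
    intro v hv
    have := hgeo v (hv.trans hs'.symm)
    rw [length_seg]
    omega
  have hsplit : seg W i w.length = seg W i l ++ seg W (i + l) (w.length - l) := by
    rw [← seg_add]; congr 1; omega
  refine ⟨FreeGroup.mk (seg W 0 i), seg W i l ++ FreeGroup.invRev s',
    s' ++ seg W (i + l) (w.length - l), ?_, ?_, ?_, ?_, ?_⟩
  · rw [val_append, val_invRev, hs', mul_inv_cancel]
  · rw [val_append, hs', ← val_append, ← hsplit]
    exact val_seg_period f W _ hW hclosed i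
  · rw [List.length_append, FreeGroup.invRev_length, length_seg]; omega
  · rw [List.length_append, length_seg]; omega
  · have e1 : FreeGroup.mk (seg W i l ++ FreeGroup.invRev s') *
        FreeGroup.mk (s' ++ seg W (i + l) (w.length - l)) = FreeGroup.mk (seg W i w.length) := by
      rw [hsplit]
      simp only [← FreeGroup.mul_mk, ← FreeGroup.inv_mk]
      group
    rw [e1]
    have e2 := congrArg FreeGroup.mk (seg_rot W w.length hW i)
    rw [← FreeGroup.mul_mk, ← FreeGroup.mul_mk, hw0] at e2
    rw [e2]; group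

variable {σ : Type*} [Fintype σ]

/-- one step: words too long to be relators are cut using short-relator lemma -/
theorem step_short (f : ι → G) (M : DFA (ι × Bool) σ)
    (hM : ∀ w, M.eval w ∈ M.accept ↔ Geo f w) (n B : ℕ)
    (hn : 2 * Fintype.card σ ≤ n + 1) (hB : FillAll f (2 * Fintype.card σ) n B) :
    FillAll f (2 * Fintype.card σ) (n + 1) (B + B) := by
  intro w hlen h1
  rcases Nat.lt_or_ge w.length (n + 1) with h | h
  · exact (hB w (by omega) h1).mono (by omega)
  have hwl : w.length = n + 1 := by omega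
  have hw : w ≠ [] := by
    intro h0; rw [h0] at hwl; simp at hwl
  set W := per w hw with hWdef
  have hW : ∀ i, W (i + w.length) = W i := per_add w hw
  have hclosed : val f (seg W 0 w.length) = 1 := by rw [seg_per w hw]; exact h1
  obtain ⟨i, l, hl, hng⟩ := comb_short w.length (fun i j => Geo f (seg W i (j - i)))
    (fun i c => M.eval (seg W i (c - i)))
    (fun i i' j' j hg a b c => hyp_sub f W i i' j' j hg a b c)
    (fun i j _ hg => hyp_len f W w.length (by omega) hW hclosed i (j - i) hg)
    (fun i i' c j a b c' hq => hyp_st f M hM W i i' c j a b c' hq) (by omega)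
  have e1 : i + l - i = l := by omega
  simp only [e1] at hng
  obtain ⟨c, u, v, hu, hv, hul, hvl, heq⟩ := split f w hw h1 i l (by omega) hng
  rw [heq]
  exact ((hB u (by omega) hu).mul (hB v (by omega) hv)).conj c

theorem step_saving (f : ι → G) (M : DFA (ι × Bool) σ)
    (hM : ∀ w, M.eval w ∈ M.accept ↔ Geo f w) (K n m B B' : ℕ)
    (hm : 2 * Fintype.card σ * (n + 1) + 6 * Fintype.card σ ≤
      2 * Fintype.card σ * m + (n + 1))
    (hmn : m ≤ n)
    (hB' : FillAll f K m B')
    (hB : FillAll f K n B) :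
    FillAll f K (n + 1) (B' + B) := by
  intro w hlen h1
  rcases Nat.lt_or_ge w.length (n + 1) with h | h
  · exact (hB w (by omega) h1).mono (by omega)
  have hwl : w.length = n + 1 := by omega
  have hw : w ≠ [] := by
    intro h0; rw [h0] at hwl; simp at hwl
  set W := per w hw with hWdef
  have hW : ∀ i, W (i + w.length) = W i := per_add w hw
  have hclosed : val f (seg W 0 w.length) = 1 := by rw [seg_per w hw]; exact h1
  have hNpos : 0 < Fintype.card σ := Fintype.card_pos_iff.2 ⟨M.start⟩
  obtain ⟨i, l, hl, hng⟩ := comb_saving w.length (fun i j => Geo f (seg W i (j - i)))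
    (fun i c => M.eval (seg W i (c - i)))
    (fun i => by
      intro v _
      simp)
    (fun i i' j' j hg a b c => hyp_sub f W i i' j' j hg a b c)
    (fun i j _ hg => hyp_len f W w.length (by omega) hW hclosed i (j - i) hg)
    (fun i i' c j a b c' hq => hyp_st f M hM W i i' c j a b c' hq)
  have e1 : i + l - i = l := by omega
  simp only [e1] at hng
  set N := Fintype.card σ with hN
  -- 4 N l + (n+1) ≤ 2 N (n+1) + 8 N
  rw [hwl] at hl
  have h2l : 2 * l ≤ m + 1 := by
    have : 2 * N * (2 * l) ≤ 2 * N * (m + 1) := by nlinarith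
    exact Nat.le_of_mul_le_mul_left this (by omega)
  obtain ⟨c, u, v, hu, hv, hul, hvl, heq⟩ := split f w hw h1 i l (by omega) hng
  rw [heq]
  exact ((hB' u (by omega) hu).mul (hB v (by omega) hv)).conj c

end Pool.Agent.RegGeo
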