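import Mathlib
import Pool.Agent.RegGeo.Fill

set_option autoImplicit false

namespace Pool.Agent.RegGeo

variable {G : Type*} [Group G] {ι : Type*} {σ : Type*} [Fintype σ]

theorem FillAll.mono {f : ι → G} {K n n' B B' : ℕ} (h : FillAll f K n B) (hn : n' ≤ n)
    (hB : B ≤ B') : FillAll f K n' B' :=
  fun w hw h1 => (h w (hw.trans hn) h1).mono hB

theorem fill_base (f : ι → G) (M : DFA (ι × Bool) σ)
    (hM : ∀ w, M.eval w ∈ M.accept ↔ Geo f w) (k : ℕ) :
    FillAll f (2 * Fintype.card σ) (2 * Fintype.card σ - 1 + k) (2 ^ k) := by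
  have hNpos : 0 < Fintype.card σ := Fintype.card_pos_iff.2 ⟨M.start⟩
  induction k with
  | zero =>
    intro w hw h1
    exact Fill.single (by omega) h1
  | succ k ih =>
    have := step_short f M hM _ _ (by omega) ih
    rw [pow_succ, mul_two]
    exact this

theorem fill_chain (f : ι → G) (M : DFA (ι × Bool) σ)
    (hM : ∀ w, M.eval w ∈ M.accept ↔ Geo f w) (K n m B : ℕ)
    (hm : 2 * Fintype.card σ * n + 6 * Fintype.card σ ≤ 2 * Fintype.card σ * m + n)
    (hB : FillAll f K m B) (j : ℕ) (hj : m + j ≤ n) :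
    FillAll f K (m + j) ((1 + j) * B) := by
  have hNpos : 0 < Fintype.card σ := Fintype.card_pos_iff.2 ⟨M.start⟩
  induction j with
  | zero => simpa using hB
  | succ j ih =>
    have h1 := ih (by omega)
    have h2 := step_saving f M hM K (m + j) m ((1 + j) * B) B (by
      obtain ⟨d, hd⟩ : ∃ d, n = m + j + 1 + d := ⟨n - (m + j + 1), by omega⟩
      rw [hd] at hm
      set N := Fintype.card σ with hN
      nlinarith) (by omega) hB h1
    have e : B + (1 + j) * B = (1 + (j + 1)) * B := by ring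
    rw [e] at h2
    exact h2

theorem log_step {N n m : ℕ} (hN : 0 < N) (hn : 3 ≤ n) (hm : 0 < m)
    (hmn : 4 * N * m + n ≤ 4 * N * n) :
    (n : ℝ) * Real.exp (4 * N * (Real.log m) ^ 2) ≤ Real.exp (4 * N * (Real.log n) ^ 2) := by
  have hn0 : (0 : ℝ) < n := by positivity
  have hm0 : (0 : ℝ) < m := by exact_mod_cast hm
  have hN0 : (0 : ℝ) < N := by exact_mod_cast hN
  have hlogm : 0 ≤ Real.log m := Real.log_natCast_nonneg m
  have h1n : 1 ≤ Real.log n := by
    rw [Real.le_log_iff_exp_le hn0]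
    have : (3 : ℝ) ≤ n := by exact_mod_cast hn
    linarith [Real.exp_one_lt_d9]
  have hle : Real.log m ≤ Real.log n - 1 / (4 * N) := by
    have h1 : Real.log m - Real.log n = Real.log (m / n) :=
      (Real.log_div hm0.ne' hn0.ne').symm
    have h2 : Real.log ((m : ℝ) / n) ≤ m / n - 1 := Real.log_le_sub_one_of_pos (by positivity)
    have h3 : (m : ℝ) / n ≤ 1 - 1 / (4 * N) := by
      rw [div_le_iff₀ hn0]
      have h4 : (4 : ℝ) * N * m + n ≤ 4 * N * n := by exact_mod_cast hmn
      have h5 : (1 - 1 / (4 * (N : ℝ))) * n = (4 * N * n - n) / (4 * N) := by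
        field_simp
      rw [h5, le_div_iff₀ (by positivity)]
      linarith
    linarith
  have hd : (0 : ℝ) < 1 / (4 * N) := by positivity
  have hd1 : 1 / (4 * (N : ℝ)) ≤ 1 := by
    rw [div_le_one (by positivity)]
    have : (1 : ℝ) ≤ N := by exact_mod_cast hN
    linarith
  have hsq : (Real.log m) ^ 2 ≤ (Real.log n - 1 / (4 * N)) ^ 2 := by
    apply pow_le_pow_left₀ hlogm hle
  have hkey : Real.log n + 4 * N * (Real.log m) ^ 2 ≤ 4 * N * (Real.log n) ^ 2 := by
    have h6 : 4 * (N : ℝ) * (Real.log n - 1 / (4 * N)) ^ 2 =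
        4 * N * (Real.log n) ^ 2 - 2 * Real.log n + 1 / (4 * N) := by
      field_simp
      ring
    have h7 : 4 * (N : ℝ) * (Real.log m) ^ 2 ≤ 4 * (N : ℝ) * (Real.log n - 1 / (4 * N)) ^ 2 := by
      apply mul_le_mul_of_nonneg_left hsq (by positivity)
    linarith
  calc (n : ℝ) * Real.exp (4 * N * (Real.log m) ^ 2)
      = Real.exp (Real.log n) * Real.exp (4 * N * (Real.log m) ^ 2) := by
        rw [Real.exp_log hn0]
    _ = Real.exp (Real.log n + 4 * N * (Real.log m) ^ 2) := by rw [← Real.exp_add]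
    _ ≤ _ := Real.exp_le_exp.2 hkey

theorem fill_main (f : ι → G) (M : DFA (ι × Bool) σ)
    (hM : ∀ w, M.eval w ∈ M.accept ↔ Geo f w) (n : ℕ) :
    FillAll f (2 * Fintype.card σ) n
      ⌊(2 : ℝ) ^ (15 * Fintype.card σ) *
        Real.exp (4 * Fintype.card σ * (Real.log n) ^ 2)⌋₊ := by
  have hNpos : 0 < Fintype.card σ := Fintype.card_pos_iff.2 ⟨M.start⟩
  set N := Fintype.card σ with hN
  induction n using Nat.strong_induction_on with
  | _ n ih =>
  rcases Nat.lt_or_ge n (16 * N) with hsmall | hbig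
  · have h1 := fill_base f M hM (14 * N + 1)
    rw [← hN] at h1
    refine h1.mono (by omega) ?_
    apply Nat.le_floor
    push_cast
    have h2 : (1 : ℝ) ≤ Real.exp (4 * N * (Real.log n) ^ 2) := Real.one_le_exp (by positivity)
    have h3 : (2 : ℝ) ^ (14 * N + 1) ≤ 2 ^ (15 * N) :=
      pow_le_pow_right₀ (by norm_num) (by omega)
    calc (2 : ℝ) ^ (14 * N + 1) ≤ 2 ^ (15 * N) := h3
      _ = 2 ^ (15 * N) * 1 := (mul_one _).symm
      _ ≤ _ := mul_le_mul_of_nonneg_left h2 (by positivity)
  · -- choose m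
    set d := n / (4 * N) + 1 with hd
    have hd1 : n < 4 * N * d := by
      have := Nat.lt_mul_div_succ n (show 0 < 4 * N by omega)
      rw [hd]; exact this
    have hd2 : 4 * N * (n / (4 * N)) ≤ n := Nat.mul_div_le n (4 * N)
    have hd3 : 4 * N * d ≤ n + 4 * N := by
      rw [hd, mul_add, mul_one]; omega
    have hd0 : 1 ≤ d := by rw [hd]; exact Nat.le_add_left 1 _
    have hdn : d + 1 ≤ n := by nlinarith
    have hm := ih (n - d) (by omega)
    obtain ⟨m, hmdef⟩ : ∃ m, n = m + d := ⟨n - d, by omega⟩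
    have hmm : n - d = m := by omega
    rw [hmm] at hm
    have hchain := fill_chain f M hM (2 * N) n m _ (by
      rw [← hN]
      have : 2 * N * n = 2 * N * m + 2 * N * d := by rw [hmdef]; ring
      nlinarith) hm d (by omega)
    rw [← hmdef] at hchain
    refine hchain.mono le_rfl ?_
    apply Nat.le_floor
    push_cast
    have hstep := log_step (N := N) (n := n) (m := m) hNpos (by omega) (by omega) (by
      have : 4 * N * n = 4 * N * m + 4 * N * d := by rw [hmdef]; ring
      omega)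
    have hfl := Nat.floor_le (show (0 : ℝ) ≤ (2 : ℝ) ^ (15 * N) *
        Real.exp (4 * N * (Real.log m) ^ 2) by positivity)
    have hdn' : (1 : ℝ) + d ≤ n := by exact_mod_cast (by omega : 1 + d ≤ n)
    calc (1 + (d : ℝ)) * ⌊(2 : ℝ) ^ (15 * N) * Real.exp (4 * N * (Real.log m) ^ 2)⌋₊
        ≤ n * ((2 : ℝ) ^ (15 * N) * Real.exp (4 * N * (Real.log m) ^ 2)) := by
          apply mul_le_mul hdn' hfl (by positivity) (by positivity)
      _ = (2 : ℝ) ^ (15 * N) * (n * Real.exp (4 * N * (Real.log m) ^ 2)) := by ring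
      _ ≤ _ := mul_le_mul_of_nonneg_left hstep (by positivity)

/-- the kernel of the free group onto `G` is the normal closure of the short trivial words -/
theorem ker_eq (f : ι → G) (M : DFA (ι × Bool) σ)
    (hM : ∀ w, M.eval w ∈ M.accept ↔ Geo f w) :
    Subgroup.normalClosure (FreeGroup.mk '' {r : List (ι × Bool) |
      r.length < 2 * Fintype.card σ ∧ val f r = 1}) = (FreeGroup.lift f).ker := by
  classical
  apply le_antisymm
  · apply Subgroup.normalClosure_le_normal
    rintro _ ⟨r, ⟨_, hr⟩, rfl⟩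
    rw [SetLike.mem_coe, MonoidHom.mem_ker, ← val_eq_lift, hr]
  · intro g hg
    have hg' : val f g.toWord = 1 := by
      rw [val_eq_lift, FreeGroup.mk_toWord]; exact hg
    obtain ⟨l, -, h2, h3⟩ := fill_main f M hM g.toWord.length g.toWord le_rfl hg'
    rw [FreeGroup.mk_toWord] at h3
    rw [← h3]
    apply Subgroup.list_prod_mem
    intro x hx
    obtain ⟨c, r, hr, hr1, rfl⟩ := h2 x hx
    apply Subgroup.Normal.conj_mem Subgroup.normalClosure_normal
    exact Subgroup.subset_normalClosure ⟨r, ⟨hr, hr1⟩, rfl⟩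

theorem finPres [Finite ι] (f : ι → G) (hf : Function.Surjective (FreeGroup.lift f))
    (M : DFA (ι × Bool) σ) (hM : ∀ w, M.eval w ∈ M.accept ↔ Geo f w) :
    Group.IsFinitelyPresented G := by
  refine Group.IsFinitelyPresented.of_surjective (FreeGroup.lift f) hf ⟨_, ?_, ker_eq f M hM⟩
  apply Set.Finite.image
  exact (List.finite_length_lt (ι × Bool) (2 * Fintype.card σ)).subset fun r hr => hr.1

end Pool.Agent.RegGeo
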